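import Pool.Agent.J4H12.PZ.Stm

/-! Project PZ (S12949), piece PC: the jump of the profile. -/

set_option autoImplicit false

open MeasureTheory Set Filter Topology Metric

namespace Pool.Agent.J4H52.PZ

open Pool.Agent.J4H12.PZ

/-- `∫_0^∞ max (1 - c x) 0 = 1 / (2 c)`. -/
theorem tent {c : ℝ} (hc : 0 < c) :
    IntegrableOn (fun x : ℝ => max (1 - c * x) 0) (Ioi 0) ∧
      ∫ x in Ioi (0 : ℝ), max (1 - c * x) 0 = 1 / (2 * c) := by
  have hsub : Ioc (0 : ℝ) (1 / c) ⊆ Ioi 0 := fun x hx => hx.1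
  have hz : ∀ x ∈ Ioi (0 : ℝ) \ Ioc (0 : ℝ) (1 / c), max (1 - c * x) 0 = 0 := by
    intro x hx
    have h1 : 0 < x := hx.1
    have h2 : 1 / c < x := by
      by_contra h
      exact hx.2 ⟨h1, not_lt.1 h⟩
    have h3 : 1 < c * x := by
      rw [div_lt_iff₀ hc] at h2
      linarith
    exact max_eq_right (by linarith)
  have hcont : Continuous (fun x : ℝ => max (1 - c * x) 0) := by fun_prop
  have hint0 : IntegrableOn (fun x : ℝ => max (1 - c * x) 0) (Ioc 0 (1 / c)) :=
    (hcont.integrableOn_Icc).mono_set Ioc_subset_Icc_self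
  refine ⟨?_, ?_⟩
  · exact hint0.of_forall_sdiff_eq_zero measurableSet_Ioi hz
  · rw [setIntegral_eq_of_subset_of_forall_sdiff_eq_zero measurableSet_Ioi hsub hz]
    have h1 : ∫ x in Ioc (0 : ℝ) (1 / c), max (1 - c * x) 0 = ∫ x in Ioc (0 : ℝ) (1 / c), (1 - c * x) := by
      refine setIntegral_congr_fun measurableSet_Ioc ?_
      intro x hx
      have : c * x ≤ 1 := by
        have := hx.2
        rw [le_div_iff₀ hc] at this
        linarith
      exact max_eq_left (by linarith)
    rw [h1, ← intervalIntegral.integral_of_le (by positivity)]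
    have hc1 : Continuous (fun _ : ℝ => (1 : ℝ)) := continuous_const
    have hc2 : Continuous (fun x : ℝ => c * x) := by fun_prop
    rw [intervalIntegral.integral_sub (f := fun _ => (1 : ℝ)) (g := fun x => c * x)
      (hc1.intervalIntegrable _ _) (hc2.intervalIntegrable _ _)]
    rw [intervalIntegral.integral_const_mul]
    simp
    field_simp
    ring

/-- The integral of a function equal to two half tents. -/
theorem two_tents {F : ℝ → ℝ} {a b α β : ℝ} (ha : 0 < a) (hb : 0 < b)
    (h1 : ∀ x : ℝ, 0 < x → F x = α * max (1 - a * x) 0)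
    (h2 : ∀ x : ℝ, x < 0 → F x = β * max (1 - b * (-x)) 0) :
    ∫ x, F x = α / (2 * a) + β / (2 * b) := by
  have hI1 : IntegrableOn F (Ioi 0) := by
    refine IntegrableOn.congr_fun ((tent ha).1.const_mul α) ?_ measurableSet_Ioi
    intro x hx
    exact (h1 x hx).symm
  have hneg : (fun x : ℝ => β * max (1 - b * (-x)) 0) = fun x => (fun y : ℝ => β * max (1 - b * y) 0) (-x) := rfl
  have hI2 : IntegrableOn F (Iio 0) := by
    have h3 : IntegrableOn (fun x : ℝ => (fun y : ℝ => β * max (1 - b * y) 0) (-x)) (Iio 0) := by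
      have := (tent hb).1.const_mul β
      have h4 : IntegrableOn (fun y : ℝ => β * max (1 - b * y) 0) (Ioi (-(0:ℝ))) := by
        rw [neg_zero]; exact this
      exact h4.comp_neg_Iio
    refine IntegrableOn.congr_fun h3 ?_ measurableSet_Iio
    intro x hx
    exact (h2 x hx).symm
  have hI3 : IntegrableOn F (Iic 0) := by
    rw [← Iio_union_right]
    exact hI2.union (by simp)
  have hu : IntegrableOn F (Iic 0 ∪ Ioi 0) := hI3.union hI1
  have e1 : ∫ x, F x = (∫ x in Iic 0, F x) + ∫ x in Ioi 0, F x :=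
    (intervalIntegral.integral_Iic_add_Ioi hI3 hI1).symm
  have e2 : ∫ x in Ioi 0, F x = α / (2 * a) := by
    rw [setIntegral_congr_fun measurableSet_Ioi (fun x hx => h1 x hx), integral_const_mul, (tent ha).2]
    ring
  have e3 : ∫ x in Iic 0, F x = β / (2 * b) := by
    rw [integral_Iic_eq_integral_Iio]
    rw [setIntegral_congr_fun measurableSet_Iio (fun x hx => h2 x hx), integral_const_mul]
    have h5 : ∫ x in Iio (0:ℝ), max (1 - b * (-x)) 0 = ∫ x in Ioi (0 : ℝ), max (1 - b * x) 0 := by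
      rw [← integral_Iic_eq_integral_Iio]
      have := integral_comp_neg_Iic (0:ℝ) (fun y : ℝ => max (1 - b * y) 0)
      rw [neg_zero] at this
      exact this
    rw [h5, (tent hb).2]
    ring
  rw [e1, e2, e3]
  ring

/-- The profile with `y = p x`. -/
theorem prof_pos {x y : ℝ} (hx : 0 < x) :
    (y + x < 0 → max 0 (max (-y - 1) x) - max 0 (max (-y) x) + (if max 0 x < -y then (1 : ℝ) else 0) =
      max (1 + (y + x)) 0) ∧
    (0 < y + x → max 0 (max (-y - 1) x) - max 0 (max (-y) x) + (if max 0 x < -y then (1 : ℝ) else 0) =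
      0) ∧
    (y + x < 0 → max 0 (max (-y - -1) x) - max 0 (max (-y) x) + (if max 0 x < -y then (-1 : ℝ) else 0) =
      0) ∧
    (0 < y + x → max 0 (max (-y - -1) x) - max 0 (max (-y) x) + (if max 0 x < -y then (-1 : ℝ) else 0) =
      max (1 - (y + x)) 0) := by
  refine ⟨fun h => ?_, fun h => ?_, fun h => ?_, fun h => ?_⟩ <;>
  · simp only [max_def]
    split_ifs <;> linarith

theorem prof_neg {x y : ℝ} (hx : x < 0) :
    (y < 0 → max 0 (max (-y - 1) x) - max 0 (max (-y) x) + (if max 0 x < -y then (1 : ℝ) else 0) =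
      max (1 + y) 0) ∧
    (0 < y → max 0 (max (-y - 1) x) - max 0 (max (-y) x) + (if max 0 x < -y then (1 : ℝ) else 0) =
      0) ∧
    (y < 0 → max 0 (max (-y - -1) x) - max 0 (max (-y) x) + (if max 0 x < -y then (-1 : ℝ) else 0) =
      0) ∧
    (0 < y → max 0 (max (-y - -1) x) - max 0 (max (-y) x) + (if max 0 x < -y then (-1 : ℝ) else 0) =
      max (1 - y) 0) := by
  refine ⟨fun h => ?_, fun h => ?_, fun h => ?_, fun h => ?_⟩ <;>
  · simp only [max_def]
    split_ifs <;> linarith

theorem bb_eq {p : ℝ} (hp : p ≠ 0) (hp1 : p ≠ -1) :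
    (∀ x : ℝ, 0 < x → bb p 1 x = (if p + 1 < 0 then 1 else 0) * max (1 - |p + 1| * x) 0) ∧
    (∀ x : ℝ, 0 < x → bb p (-1) x = (if p + 1 < 0 then 0 else 1) * max (1 - |p + 1| * x) 0) ∧
    (∀ x : ℝ, x < 0 → bb p 1 x = (if p < 0 then 0 else 1) * max (1 - |p| * (-x)) 0) ∧
    (∀ x : ℝ, x < 0 → bb p (-1) x = (if p < 0 then 1 else 0) * max (1 - |p| * (-x)) 0) := by
  have hp2 : p + 1 ≠ 0 := fun h => hp1 (by linarith)
  refine ⟨fun x hx => ?_, fun x hx => ?_, fun x hx => ?_, fun x hx => ?_⟩
  · obtain ⟨h1, h2, h3, h4⟩ := prof_pos (x := x) (y := p * x) hx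
    rcases lt_or_gt_of_ne hp2 with h | h
    · have hy : p * x + x < 0 := by nlinarith
      rw [if_pos h, abs_of_neg h]
      unfold bb
      rw [h1 hy, one_mul]
      congr 1; ring
    · have hy : 0 < p * x + x := by nlinarith
      rw [if_neg (not_lt.2 h.le), zero_mul]
      unfold bb
      exact h2 hy
  · obtain ⟨h1, h2, h3, h4⟩ := prof_pos (x := x) (y := p * x) hx
    rcases lt_or_gt_of_ne hp2 with h | h
    · have hy : p * x + x < 0 := by nlinarith
      rw [if_pos h, zero_mul]
      unfold bb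
      exact h3 hy
    · have hy : 0 < p * x + x := by nlinarith
      rw [if_neg (not_lt.2 h.le), one_mul, abs_of_pos h]
      unfold bb
      rw [h4 hy]
      congr 1; ring
  · obtain ⟨h1, h2, h3, h4⟩ := prof_neg (x := x) (y := p * x) hx
    rcases lt_or_gt_of_ne hp with h | h
    · have hy : 0 < p * x := by nlinarith
      rw [if_pos h, zero_mul]
      unfold bb
      exact h2 hy
    · have hy : p * x < 0 := by nlinarith
      rw [if_neg (not_lt.2 h.le), one_mul, abs_of_pos h]
      unfold bb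
      rw [h1 hy]
      congr 1; ring
  · obtain ⟨h1, h2, h3, h4⟩ := prof_neg (x := x) (y := p * x) hx
    rcases lt_or_gt_of_ne hp with h | h
    · have hy : 0 < p * x := by nlinarith
      rw [if_pos h, one_mul, abs_of_neg h]
      unfold bb
      rw [h4 hy]
      congr 1; ring
    · have hy : p * x < 0 := by nlinarith
      rw [if_neg (not_lt.2 h.le), zero_mul]
      unfold bb
      exact h3 hy

/-- PC: the jump. -/
theorem t_PC : S_PC := by
  intro p hp hp1
  obtain ⟨h1, h2, h3, h4⟩ := bb_eq hp hp1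
  have hp2 : p + 1 ≠ 0 := fun h => hp1 (by linarith)
  have ha : 0 < |p + 1| := abs_pos.2 hp2
  have hb : 0 < |p| := abs_pos.2 hp
  rw [two_tents ha hb h1 h3, two_tents ha hb h2 h4]
  have hp3 : (1 + p) ≠ 0 := by rwa [add_comm] at hp2
  rcases lt_or_gt_of_ne hp2 with h | h <;> rcases lt_or_gt_of_ne hp with h' | h'
  · rw [if_pos h, if_pos h, if_pos h', if_pos h', abs_of_neg h, abs_of_neg h']
    have e1 : -(p + 1) ≠ 0 := neg_ne_zero.2 hp2
    have e2 : -p ≠ 0 := neg_ne_zero.2 hp
    field_simp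
    ring
  · exact absurd h' (by linarith)
  · rw [if_neg (not_lt.2 h.le), if_neg (not_lt.2 h.le), if_pos h', if_pos h', abs_of_pos h,
      abs_of_neg h']
    have e2 : -p ≠ 0 := neg_ne_zero.2 hp
    field_simp
    ring
  · rw [if_neg (not_lt.2 h.le), if_neg (not_lt.2 h.le), if_neg (not_lt.2 h'.le),
      if_neg (not_lt.2 h'.le), abs_of_pos h, abs_of_pos h']
    field_simp
    ring

end Pool.Agent.J4H52.PZ
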