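import Pool.Agent.J4H12.PZ.Stm

/-! Project PZ (S12949), pieces TH1 and TH2: Hausdorff distance and scaling. -/

set_option autoImplicit false

open MeasureTheory Set Filter Topology Metric
open scoped Pointwise RealInnerProductSpace ENNReal

namespace Pool.Agent.J4H52.PZ

open Pool.Agent.H638.IB Pool.Agent.J4H12.PZ

theorem ball_sub {n : ℕ} (K : ConvexBody (E n)) (hs : ∀ x ∈ (K : Set (E n)), -x ∈ (K : Set (E n)))
    (hi : (interior (K : Set (E n))).Nonempty) :
    ∃ r : ℝ, 0 < r ∧ closedBall (0 : E n) r ⊆ (K : Set (E n)) := by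
  obtain ⟨x, hx⟩ := hi
  have h0 : (0 : E n) ∈ interior (K : Set (E n)) := by
    have := K.convex.combo_interior_self_mem_interior hx (hs x (interior_subset hx))
      (a := (1 / 2 : ℝ)) (b := 1 / 2) (by norm_num) (by norm_num) (by norm_num)
    simpa using this
  obtain ⟨r, hr, h⟩ := Metric.nhds_basis_closedBall.mem_iff.1 (mem_interior_iff_mem_nhds.1 h0)
  exact ⟨r, hr, h⟩

theorem t_TH1 : S_TH1 := by
  intro n K hs hi δ hδ hδ1
  obtain ⟨r, hr, hball⟩ := ball_sub K hs hi
  refine ⟨δ * r, by positivity, ?_⟩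
  intro K' hd
  have hd1 : Metric.hausdorffDist (K' : Set (E n)) K < δ * r := hd
  constructor
  · rintro x ⟨k, hk, rfl⟩
    by_contra hx
    obtain ⟨f, u, hfx, hfu⟩ := geometric_hahn_banach_point_closed K'.convex K'.isClosed hx
    obtain ⟨k₀, hk₀, hmin⟩ := K.isCompact.exists_isMinOn K.nonempty f.continuous.continuousOn
    obtain ⟨b, hb, hbd⟩ := Metric.exists_dist_lt_of_hausdorffDist_lt' hk₀ hd1
      ConvexBody.hausdorffEDist_ne_top
    -- the ball
    have hball1 : f k₀ ≤ -(r * ‖f‖) := by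
      set v := (InnerProductSpace.toDual ℝ (E n)).symm f with hv
      have hvn : ‖v‖ = ‖f‖ := by rw [hv]; simp
      have hvf : ∀ y, f y = ⟪v, y⟫ := fun y => by
        rw [hv, InnerProductSpace.toDual_symm_apply]
      by_cases h0 : ‖v‖ = 0
      · have h1 : (0 : E n) ∈ (K : Set (E n)) := hball (by simp [hr.le])
        have h2 : f k₀ ≤ f 0 := hmin h1
        rw [← hvn, h0]
        simpa using h2
      · have hpos : 0 < ‖v‖ := lt_of_le_of_ne (norm_nonneg _) (Ne.symm h0)
        have h1 : (-(r / ‖v‖)) • v ∈ (K : Set (E n)) := by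
          refine hball ?_
          rw [mem_closedBall_zero_iff, norm_smul, norm_neg, Real.norm_eq_abs, abs_of_pos (by positivity)]
          rw [div_mul_cancel₀ _ h0]
        have h2 : f k₀ ≤ f ((-(r / ‖v‖)) • v) := hmin h1
        rw [hvf ((-(r / ‖v‖)) • v), inner_smul_right, real_inner_self_eq_norm_sq] at h2
        have h3 : -(r / ‖v‖) * ‖v‖ ^ 2 = -(r * ‖f‖) := by
          rw [← hvn]
          field_simp
        rwa [h3] at h2
    have h1 : f b - f k₀ ≤ ‖f‖ * dist b k₀ := by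
      rw [← map_sub, dist_eq_norm]
      exact (le_abs_self _).trans (f.le_opNorm _)
    have h2 : ‖f‖ * dist b k₀ ≤ ‖f‖ * (δ * r) := by gcongr
    have h3 : f k₀ ≤ f k := hmin hk
    have h4 : f ((1 - δ) • k) = (1 - δ) * f k := by rw [map_smul, smul_eq_mul]
    have hfx' : (1 - δ) * f k < u := by rw [← h4]; exact hfx
    have h5 := hfu b hb
    have h6 : (1 - δ) * f k₀ ≤ (1 - δ) * f k := mul_le_mul_of_nonneg_left h3 (by linarith)
    nlinarith [h1, h2, hball1, h5, h6, hfx']
  · intro y hy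
    obtain ⟨k, hk, hkd⟩ := Metric.exists_dist_lt_of_hausdorffDist_lt hy hd1
      ConvexBody.hausdorffEDist_ne_top
    have h1 : (δ⁻¹) • (y - k) ∈ (K : Set (E n)) := by
      refine hball ?_
      rw [mem_closedBall_zero_iff, norm_smul, norm_inv, Real.norm_eq_abs, abs_of_pos hδ,
        inv_mul_le_iff₀ hδ, ← dist_eq_norm]
      exact hkd.le
    have h2 : (1 / (1 + δ)) • k + (δ / (1 + δ)) • ((δ⁻¹) • (y - k)) ∈ (K : Set (E n)) :=
      K.convex hk h1 (by positivity) (by positivity) (by field_simp)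
    refine ⟨_, h2, ?_⟩
    have h3 : (1 + δ) ≠ 0 := by positivity
    show (1 + δ) • ((1 / (1 + δ)) • k + (δ / (1 + δ)) • ((δ⁻¹) • (y - k))) = y
    rw [smul_add, smul_smul, smul_smul, smul_smul]
    have e1 : (1 + δ) * (1 / (1 + δ)) = 1 := by field_simp
    have e2 : (1 + δ) * (δ / (1 + δ)) * δ⁻¹ = 1 := by field_simp
    rw [e1, e2, one_smul, one_smul]
    abel

theorem t_TH2 : S_TH2 := by
  intro n K _ ε hε
  obtain ⟨R, hR0, hR⟩ : ∃ R : ℝ, 0 < R ∧ ∀ x ∈ (K : Set (E n)), ‖x‖ ≤ R := by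
    obtain ⟨R, hR⟩ := K.isBounded.exists_norm_le
    exact ⟨max R 1, by positivity, fun x hx => (hR x hx).trans (le_max_left _ _)⟩
  have hδ : 0 < min (1 / 2) (ε / (2 * R)) := by positivity
  refine ⟨min (1 / 2) (ε / (2 * R)), hδ, (min_le_left _ _).trans_lt (by norm_num), ?_⟩
  set δ := min (1 / 2) (ε / (2 * R)) with hδd
  intro K' h1 h2
  have h3 : δ * R ≤ ε / 2 := by
    calc δ * R ≤ (ε / (2 * R)) * R := by gcongr; exact min_le_right _ _
      _ = ε / 2 := by field_simp
  have h4 : Metric.hausdorffDist (K' : Set (E n)) K ≤ ε / 2 := by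
    refine Metric.hausdorffDist_le_of_mem_dist (by positivity) ?_ ?_
    · intro y hy
      obtain ⟨k, hk, rfl⟩ := h2 hy
      refine ⟨k, hk, ?_⟩
      show dist ((1 + δ) • k) k ≤ ε / 2
      rw [dist_eq_norm, add_smul, one_smul, add_sub_cancel_left, norm_smul, Real.norm_eq_abs,
        abs_of_pos hδ]
      refine le_trans ?_ h3
      gcongr
      exact hR k hk
    · intro k hk
      refine ⟨(1 - δ) • k, h1 ⟨k, hk, rfl⟩, ?_⟩
      rw [dist_eq_norm, sub_smul, one_smul, sub_sub_cancel, norm_smul, Real.norm_eq_abs,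
        abs_of_pos hδ]
      refine le_trans ?_ h3
      gcongr
      exact hR k hk
  have h5 : dist K' K = Metric.hausdorffDist (K' : Set (E n)) K := rfl
  rw [h5]
  linarith

end Pool.Agent.J4H52.PZ
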